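import Mathlib

/-!
# A three-dimensional algebra with no finite basis of identities

Over every infinite field `K` the three-dimensional algebra with basis `f₁, f₂, f₃` and the only
nonzero products `f₂ f₁ = f₂ + f₃`, `f₃ f₂ = f₃` has no finite basis of its polynomial identities.

The identities `w (x y x x ⋯ x) = w (x x y x ⋯ x)` (left normed products in the brackets) hold in
it, and for every `k` there is an algebra in which all its identities of degree at most `k + 1`
hold, but not the identity above of degree `k + 2`.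
-/

set_option autoImplicit false

open Polynomial

namespace Pool.Agent.Results.MP_c03fb1_al.DimensionThree

universe u

/-- The algebra `A` satisfies the polynomial identity `f`, a nonassociative polynomial in countably
many variables. -/
def Satisfies (K : Type u) [Field K] (A : Type u) [NonUnitalNonAssocRing A] [Module K A]
    [IsScalarTower K A A] [SMulCommClass K A A] (f : FreeNonUnitalNonAssocAlgebra K ℕ) : Prop :=
  ∀ v : ℕ → A, FreeNonUnitalNonAssocAlgebra.lift K v f = 0

/-- The algebra `R` over the field `K` is finitely based: there is a finite set `S` of identities of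
`R` such that every identity of `R` holds in all algebras satisfying the identities in `S`. -/
def FinitelyBased (K : Type u) [Field K] (R : Type u) [NonUnitalNonAssocRing R] [Module K R]
    [IsScalarTower K R R] [SMulCommClass K R R] : Prop :=
  ∃ S : Finset (FreeNonUnitalNonAssocAlgebra K ℕ), (∀ f ∈ S, Satisfies K R f) ∧
    ∀ f : FreeNonUnitalNonAssocAlgebra K ℕ, Satisfies K R f →
      ∀ (A : Type u) [NonUnitalNonAssocRing A] [Module K A] [IsScalarTower K A A]
        [SMulCommClass K A A], (∀ g ∈ S, Satisfies K A g) → Satisfies K A f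

/-! ### The algebra -/

/-- The three-dimensional algebra: `⟨a, b, m⟩` stands for `a f₁ + b f₂ + m f₃`. -/
@[ext] structure R3 (A : Type u) : Type u where
  /-- first coordinate -/
  a : A
  /-- second coordinate -/
  b : A
  /-- third coordinate -/
  m : A

namespace R3

section

variable {A : Type u} [CommRing A]

instance : Zero (R3 A) := ⟨⟨0, 0, 0⟩⟩
instance : Add (R3 A) := ⟨fun x y => ⟨x.a + y.a, x.b + y.b, x.m + y.m⟩⟩
instance : Neg (R3 A) := ⟨fun x => ⟨-x.a, -x.b, -x.m⟩⟩
instance : Sub (R3 A) := ⟨fun x y => ⟨x.a - y.a, x.b - y.b, x.m - y.m⟩⟩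
instance instSMul {S : Type*} [SMul S A] : SMul S (R3 A) := ⟨fun c x => ⟨c • x.a, c • x.b, c • x.m⟩⟩

@[simp] theorem a_add (x y : R3 A) : (x + y).a = x.a + y.a := rfl
@[simp] theorem b_add (x y : R3 A) : (x + y).b = x.b + y.b := rfl
@[simp] theorem m_add (x y : R3 A) : (x + y).m = x.m + y.m := rfl
@[simp] theorem a_zero : (0 : R3 A).a = 0 := rfl
@[simp] theorem b_zero : (0 : R3 A).b = 0 := rfl
@[simp] theorem m_zero : (0 : R3 A).m = 0 := rfl

/-- The underlying triple. -/
def toProd (x : R3 A) : A × A × A := (x.a, x.b, x.m)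

omit [CommRing A] in
theorem toProd_injective : Function.Injective (toProd : R3 A → A × A × A) := by
  intro x y h
  simp only [toProd, Prod.mk.injEq] at h
  exact R3.ext h.1 h.2.1 h.2.2

instance : AddCommGroup (R3 A) :=
  Function.Injective.addCommGroup toProd toProd_injective rfl (fun _ _ => rfl) (fun _ => rfl)
    (fun _ _ => rfl) (fun _ _ => rfl) (fun _ _ => rfl)

instance : Mul (R3 A) := ⟨fun x y => ⟨0, x.b * y.a, x.b * y.a + x.m * y.b⟩⟩

@[simp] theorem a_mul (x y : R3 A) : (x * y).a = 0 := rfl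
@[simp] theorem b_mul (x y : R3 A) : (x * y).b = x.b * y.a := rfl
@[simp] theorem m_mul (x y : R3 A) : (x * y).m = x.b * y.a + x.m * y.b := rfl

instance : NonUnitalNonAssocRing (R3 A) where
  left_distrib x y z := by ext <;> simp <;> ring
  right_distrib x y z := by ext <;> simp <;> ring
  zero_mul x := by ext <;> simp
  mul_zero x := by ext <;> simp

variable {K : Type u} [Field K] [Algebra K A]

@[simp] theorem a_smul (c : K) (x : R3 A) : (c • x).a = c • x.a := rfl
@[simp] theorem b_smul (c : K) (x : R3 A) : (c • x).b = c • x.b := rfl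
@[simp] theorem m_smul (c : K) (x : R3 A) : (c • x).m = c • x.m := rfl

instance : Module K (R3 A) where
  one_smul x := by ext <;> simp
  mul_smul c d x := by ext <;> simp [mul_smul]
  smul_zero c := by ext <;> simp
  smul_add c x y := by ext <;> simp
  add_smul c d x := by ext <;> simp [add_smul]
  zero_smul x := by ext <;> simp

instance : IsScalarTower K (R3 A) (R3 A) :=
  ⟨fun c x y => by ext <;> simp [smul_eq_mul]⟩

instance : SMulCommClass K (R3 A) (R3 A) :=
  ⟨fun c x y => by ext <;> simp [smul_eq_mul]⟩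

variable (K) in
/-- Coordinates as linear maps. -/
def aL : R3 A →ₗ[K] A := ⟨⟨R3.a, fun _ _ => rfl⟩, fun _ _ => rfl⟩
variable (K) in
/-- Coordinates as linear maps. -/
def bL : R3 A →ₗ[K] A := ⟨⟨R3.b, fun _ _ => rfl⟩, fun _ _ => rfl⟩
variable (K) in
/-- Coordinates as linear maps. -/
def mL : R3 A →ₗ[K] A := ⟨⟨R3.m, fun _ _ => rfl⟩, fun _ _ => rfl⟩

@[simp] theorem aL_apply (x : R3 A) : aL K x = x.a := rfl
@[simp] theorem bL_apply (x : R3 A) : bL K x = x.b := rfl
@[simp] theorem mL_apply (x : R3 A) : mL K x = x.m := rfl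

/-- Functoriality in the coefficient algebra. -/
def map {B : Type u} [CommRing B] [Algebra K B] (φ : A →ₐ[K] B) : R3 A →ₙₐ[K] R3 B where
  toFun x := ⟨φ x.a, φ x.b, φ x.m⟩
  map_smul' c x := by ext <;> simp
  map_zero' := by ext <;> simp
  map_add' x y := by ext <;> simp
  map_mul' x y := by ext <;> simp

end

end R3

/-! ### Evaluation of nonassociative polynomials -/

section Lift

variable {K : Type u} [Field K]

theorem lift_eq_sum {A : Type u} [NonUnitalNonAssocRing A] [Module K A] [IsScalarTower K A A]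
    [SMulCommClass K A A] (v : ℕ → A) (f : FreeNonUnitalNonAssocAlgebra K ℕ) :
    FreeNonUnitalNonAssocAlgebra.lift K v f =
      ∑ m ∈ f.coeff.support, f.coeff m • FreeMagma.lift v m := rfl

theorem linear_lift {A : Type u} [NonUnitalNonAssocRing A] [Module K A] [IsScalarTower K A A]
    [SMulCommClass K A A] {B : Type u} [AddCommGroup B] [Module K B] (ℓ : A →ₗ[K] B) (v : ℕ → A)
    (f : FreeNonUnitalNonAssocAlgebra K ℕ) :
    ℓ (FreeNonUnitalNonAssocAlgebra.lift K v f) =
      ∑ m ∈ f.coeff.support, f.coeff m • ℓ (FreeMagma.lift v m) := by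
  rw [lift_eq_sum, map_sum]
  simp only [map_smul]

/-- Identities of `R3 K` hold in `R3 A` for all commutative algebras `A`, when `K` is infinite. -/
theorem satisfies_extend [Infinite K] (f : FreeNonUnitalNonAssocAlgebra K ℕ)
    (hf : Satisfies K (R3 K) f) (A : Type u) [CommRing A] [Algebra K A] (v : ℕ → R3 A) :
    FreeNonUnitalNonAssocAlgebra.lift K v f = 0 := by
  classical
  let P := MvPolynomial (ℕ × Fin 3) K
  let g : ℕ → R3 P := fun i => ⟨MvPolynomial.X (i, 0), MvPolynomial.X (i, 1), MvPolynomial.X (i, 2)⟩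
  have key : FreeNonUnitalNonAssocAlgebra.lift K g f = 0 := by
    have h1 : ∀ x : ℕ × Fin 3 → K,
        R3.map (MvPolynomial.aeval x : P →ₐ[K] K) (FreeNonUnitalNonAssocAlgebra.lift K g f) = 0 := by
      intro x
      have h2 : (R3.map (MvPolynomial.aeval x : P →ₐ[K] K)).comp
          (FreeNonUnitalNonAssocAlgebra.lift K g) = FreeNonUnitalNonAssocAlgebra.lift K
            (fun i => R3.map (MvPolynomial.aeval x : P →ₐ[K] K) (g i)) := by
        apply FreeNonUnitalNonAssocAlgebra.hom_ext
        intro i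
        simp
      have h3 := congrArg (fun F => F f) h2
      simp only [NonUnitalAlgHom.coe_comp, Function.comp_apply] at h3
      rw [h3]
      exact hf _
    have h4 : ∀ p : P, (∀ x : ℕ × Fin 3 → K, MvPolynomial.aeval x p = (0 : K)) → p = 0 := by
      intro p hp
      apply MvPolynomial.funext
      intro x
      have := hp x
      rw [map_zero]
      rw [MvPolynomial.aeval_def] at this
      exact this
    exact R3.ext (h4 _ fun x => congrArg R3.a (h1 x)) (h4 _ fun x => congrArg R3.b (h1 x))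
      (h4 _ fun x => congrArg R3.m (h1 x))
  let x : ℕ × Fin 3 → A := fun p => ![(v p.1).a, (v p.1).b, (v p.1).m] p.2
  have h2 : (R3.map (MvPolynomial.aeval x : P →ₐ[K] A)).comp
      (FreeNonUnitalNonAssocAlgebra.lift K g) = FreeNonUnitalNonAssocAlgebra.lift K v := by
    apply FreeNonUnitalNonAssocAlgebra.hom_ext
    intro i
    simp only [NonUnitalAlgHom.coe_comp, Function.comp_apply,
      FreeNonUnitalNonAssocAlgebra.lift_of_apply]
    apply R3.ext
    · change MvPolynomial.aeval x (MvPolynomial.X (i, 0)) = _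
      simp [x]
    · change MvPolynomial.aeval x (MvPolynomial.X (i, 1)) = _
      simp [x]
    · change MvPolynomial.aeval x (MvPolynomial.X (i, 2)) = _
      simp [x]
  rw [← h2, NonUnitalAlgHom.coe_comp, Function.comp_apply, key, map_zero]

end Lift

/-! ### The test algebras -/

noncomputable section

/-- The test algebra `C k`. -/
@[ext] structure TC (K : Type u) [Field K] (k : ℕ) : Type u where
  /-- first coordinate -/
  a : K
  /-- second coordinate -/
  b : K
  /-- third coordinate -/
  e : K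
  /-- fourth coordinate -/
  U : K[X]
  /-- fifth coordinate -/
  t : K

namespace TC

variable {K : Type u} [Field K] {k : ℕ}

instance : Zero (TC K k) := ⟨⟨0, 0, 0, 0, 0⟩⟩
instance : Add (TC K k) := ⟨fun x y => ⟨x.a + y.a, x.b + y.b, x.e + y.e, x.U + y.U, x.t + y.t⟩⟩
instance : Neg (TC K k) := ⟨fun x => ⟨-x.a, -x.b, -x.e, -x.U, -x.t⟩⟩
instance : Sub (TC K k) := ⟨fun x y => ⟨x.a - y.a, x.b - y.b, x.e - y.e, x.U - y.U, x.t - y.t⟩⟩
instance instSMulNat : SMul ℕ (TC K k) := ⟨fun c x => ⟨c • x.a, c • x.b, c • x.e, c • x.U, c • x.t⟩⟩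
instance instSMulInt : SMul ℤ (TC K k) := ⟨fun c x => ⟨c • x.a, c • x.b, c • x.e, c • x.U, c • x.t⟩⟩
instance instSMulK : SMul K (TC K k) := ⟨fun c x => ⟨c • x.a, c • x.b, c • x.e, c • x.U, c • x.t⟩⟩

@[simp] theorem a_add (x y : TC K k) : (x + y).a = x.a + y.a := rfl
@[simp] theorem b_add (x y : TC K k) : (x + y).b = x.b + y.b := rfl
@[simp] theorem e_add (x y : TC K k) : (x + y).e = x.e + y.e := rfl
@[simp] theorem U_add (x y : TC K k) : (x + y).U = x.U + y.U := rfl
@[simp] theorem t_add (x y : TC K k) : (x + y).t = x.t + y.t := rfl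
@[simp] theorem a_zero : (0 : TC K k).a = 0 := rfl
@[simp] theorem b_zero : (0 : TC K k).b = 0 := rfl
@[simp] theorem e_zero : (0 : TC K k).e = 0 := rfl
@[simp] theorem U_zero : (0 : TC K k).U = 0 := rfl
@[simp] theorem t_zero : (0 : TC K k).t = 0 := rfl
@[simp] theorem a_smul (c : K) (x : TC K k) : (c • x).a = c * x.a := rfl
@[simp] theorem b_smul (c : K) (x : TC K k) : (c • x).b = c * x.b := rfl
@[simp] theorem e_smul (c : K) (x : TC K k) : (c • x).e = c * x.e := rfl
@[simp] theorem U_smul (c : K) (x : TC K k) : (c • x).U = c • x.U := rfl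
@[simp] theorem t_smul (c : K) (x : TC K k) : (c • x).t = c * x.t := rfl

/-- The underlying tuple. -/
def toProd (x : TC K k) : K × K × K × K[X] × K := (x.a, x.b, x.e, x.U, x.t)

theorem toProd_injective : Function.Injective (toProd : TC K k → K × K × K × K[X] × K) := by
  intro x y h
  simp only [toProd, Prod.mk.injEq] at h
  exact TC.ext h.1 h.2.1 h.2.2.1 h.2.2.2.1 h.2.2.2.2

instance : AddCommGroup (TC K k) :=
  Function.Injective.addCommGroup toProd toProd_injective rfl (fun _ _ => rfl) (fun _ => rfl)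
    (fun _ _ => rfl) (fun _ _ => rfl) (fun _ _ => rfl)

instance : Mul (TC K k) :=
  ⟨fun x y => ⟨0, 0, 0, X * (C (x.b * y.a) + C y.b * x.U), x.e * y.U.coeff k⟩⟩

@[simp] theorem a_mul (x y : TC K k) : (x * y).a = 0 := rfl
@[simp] theorem b_mul (x y : TC K k) : (x * y).b = 0 := rfl
@[simp] theorem e_mul (x y : TC K k) : (x * y).e = 0 := rfl
@[simp] theorem U_mul (x y : TC K k) : (x * y).U = X * (C (x.b * y.a) + C y.b * x.U) := rfl
@[simp] theorem t_mul (x y : TC K k) : (x * y).t = x.e * y.U.coeff k := rfl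

instance : NonUnitalNonAssocRing (TC K k) where
  left_distrib x y z := by
    apply TC.ext <;> simp only [a_mul, b_mul, e_mul, U_mul, t_mul, a_add, b_add, e_add, U_add,
      t_add, map_add, coeff_add, add_zero, mul_add, add_mul] <;> try ring
  right_distrib x y z := by
    apply TC.ext <;> simp only [a_mul, b_mul, e_mul, U_mul, t_mul, a_add, b_add, e_add, U_add,
      t_add, map_add, coeff_add, add_zero, mul_add, add_mul] <;> try ring
  zero_mul x := by ext <;> simp
  mul_zero x := by ext <;> simp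

instance : Module K (TC K k) where
  one_smul x := by ext <;> simp
  mul_smul c d x := by ext <;> simp [mul_assoc]
  smul_zero c := by ext <;> simp
  smul_add c x y := by ext <;> simp [mul_add]
  add_smul c d x := by ext <;> simp [add_mul]
  zero_smul x := by ext <;> simp

instance : IsScalarTower K (TC K k) (TC K k) :=
  ⟨fun c x y => by
    apply TC.ext <;> simp only [smul_eq_mul, a_mul, b_mul, e_mul, U_mul, t_mul, a_smul, b_smul,
      e_smul, U_smul, t_smul, mul_zero, smul_eq_C_mul, map_mul] <;> ring⟩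

instance : SMulCommClass K (TC K k) (TC K k) :=
  ⟨fun c x y => by
    apply TC.ext <;> simp only [smul_eq_mul, a_mul, b_mul, e_mul, U_mul, t_mul, a_smul, b_smul,
      e_smul, U_smul, t_smul, mul_zero, smul_eq_C_mul, map_mul, coeff_C_mul] <;> ring⟩

/-- Coordinates as linear maps. -/
def aL : TC K k →ₗ[K] K := ⟨⟨TC.a, fun _ _ => rfl⟩, fun _ _ => rfl⟩
/-- Coordinates as linear maps. -/
def bL : TC K k →ₗ[K] K := ⟨⟨TC.b, fun _ _ => rfl⟩, fun _ _ => rfl⟩
/-- Coordinates as linear maps. -/
def eL : TC K k →ₗ[K] K := ⟨⟨TC.e, fun _ _ => rfl⟩, fun _ _ => rfl⟩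
/-- Coordinates as linear maps. -/
def UL : TC K k →ₗ[K] K[X] := ⟨⟨TC.U, fun _ _ => rfl⟩, fun _ _ => rfl⟩
/-- Coordinates as linear maps. -/
def tL : TC K k →ₗ[K] K := ⟨⟨TC.t, fun _ _ => rfl⟩, fun _ _ => rfl⟩

@[simp] theorem aL_apply (x : TC K k) : aL x = x.a := rfl
@[simp] theorem bL_apply (x : TC K k) : bL x = x.b := rfl
@[simp] theorem eL_apply (x : TC K k) : eL x = x.e := rfl
@[simp] theorem UL_apply (x : TC K k) : UL x = x.U := rfl
@[simp] theorem tL_apply (x : TC K k) : tL x = x.t := rfl

end TC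

/-! ### The identities of small degree hold in the test algebras -/

variable {K : Type u} [Field K] {k : ℕ}

theorem dsnd_mul {A : Type u} [CommRing A] (x y : DualNumber A) :
    TrivSqZeroExt.snd (x * y) = TrivSqZeroExt.fst x * TrivSqZeroExt.snd y +
      TrivSqZeroExt.snd x * TrivSqZeroExt.fst y := DualNumber.snd_mul x y

/-- The first evaluation point: `(ε a, X b, ε U)`. -/
def pt1 (x : TC K k) : R3 (DualNumber K[X]) :=
  ⟨TrivSqZeroExt.inr (C x.a), TrivSqZeroExt.inl (X * C x.b), TrivSqZeroExt.inr x.U⟩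

theorem inv1 (c : ℕ → TC K k) (m : FreeMagma ℕ) :
    (FreeMagma.lift (fun i => pt1 (c i)) m).a.fst = 0 ∧
    (FreeMagma.lift (fun i => pt1 (c i)) m).a.snd = C (FreeMagma.lift c m).a ∧
    (FreeMagma.lift (fun i => pt1 (c i)) m).b.fst = X * C (FreeMagma.lift c m).b ∧
    (FreeMagma.lift (fun i => pt1 (c i)) m).m.fst = 0 ∧
    (FreeMagma.lift (fun i => pt1 (c i)) m).m.snd = (FreeMagma.lift c m).U := by
  induction m using FreeMagma.recOnMul with
  | ih1 i => simp [pt1]
  | ih2 x y hx hy =>
    obtain ⟨h1, h2, h3, h4, h5⟩ := hx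
    obtain ⟨g1, g2, g3, g4, g5⟩ := hy
    simp only [map_mul, R3.a_mul, R3.b_mul, R3.m_mul, TC.a_mul, TC.b_mul, TC.U_mul,
      TrivSqZeroExt.fst_zero, TrivSqZeroExt.snd_zero, TrivSqZeroExt.fst_mul, dsnd_mul,
      TrivSqZeroExt.fst_add, TrivSqZeroExt.snd_add, h3, h4, h5, g1, g2, g3,
      map_zero, mul_zero, zero_mul, add_zero, true_and]
    ring

/-- The auxiliary value. -/
def V (c : ℕ → TC K k) : FreeMagma ℕ → K[X]
  | .of i => (c i).U
  | .mul x y => X * (C (FreeMagma.lift c y).b * V c x)

theorem V_of (c : ℕ → TC K k) (i : ℕ) : V c (FreeMagma.of i) = (c i).U := rfl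

theorem V_mul (c : ℕ → TC K k) (x y : FreeMagma ℕ) :
    V c (x * y) = X * (C (FreeMagma.lift c y).b * V c x) := rfl

theorem len_pos (x : FreeMagma ℕ) : 1 ≤ x.length :=
  FreeMagma.length_pos x

theorem len_of_b (c : ℕ → TC K k) (x : FreeMagma ℕ) (h : (FreeMagma.lift c x).b ≠ 0) :
    x.length = 1 := by
  induction x using FreeMagma.recOnMul with
  | ih1 i => rfl
  | ih2 x y _ _ => exact absurd (by simp) h

theorem len_of_a (c : ℕ → TC K k) (x : FreeMagma ℕ) (h : (FreeMagma.lift c x).a ≠ 0) :
    x.length = 1 := by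
  induction x using FreeMagma.recOnMul with
  | ih1 i => rfl
  | ih2 x y _ _ => exact absurd (by simp) h

theorem inv2 (c : ℕ → TC K k) (m : FreeMagma ℕ) :
    ∃ r : K, (FreeMagma.lift c m).U = V c m + C r * X ^ (m.length - 1) := by
  induction m using FreeMagma.recOnMul with
  | ih1 i => exact ⟨0, by simp [V_of]⟩
  | ih2 x y hx hy =>
    obtain ⟨r, hr⟩ := hx
    have hlen : (x * y).length = x.length + y.length := rfl
    rw [map_mul, TC.U_mul, V_mul, hr, hlen]
    by_cases hy1 : y.length = 1
    · rw [hy1]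
      have hx0 := len_pos x
      by_cases hx1 : x.length = 1
      · refine ⟨(FreeMagma.lift c x).b * (FreeMagma.lift c y).a + (FreeMagma.lift c y).b * r, ?_⟩
        rw [hx1]
        simp only [map_add, map_mul]
        norm_num
        ring
      · have hb : (FreeMagma.lift c x).b = 0 := by
          by_contra h
          exact hx1 (len_of_b c x h)
        refine ⟨(FreeMagma.lift c y).b * r, ?_⟩
        obtain ⟨n, hn⟩ : ∃ n, x.length = n + 1 := ⟨x.length - 1, by omega⟩
        rw [hb, hn]
        simp only [map_mul, map_zero, zero_mul, zero_add, Nat.add_sub_cancel]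
        ring
    · have hb : (FreeMagma.lift c y).b = 0 := by
        by_contra h
        exact hy1 (len_of_b c y h)
      have ha : (FreeMagma.lift c y).a = 0 := by
        by_contra h
        exact hy1 (len_of_a c y h)
      exact ⟨0, by simp [ha, hb]⟩

/-- The second evaluation point: `(X b, ε U, δ e + ε δ t X ^ k)`. -/
def pt2 (x : TC K k) : R3 (DualNumber (DualNumber K[X])) :=
  ⟨TrivSqZeroExt.inl (TrivSqZeroExt.inl (X * C x.b)),
    TrivSqZeroExt.inl (TrivSqZeroExt.inr x.U),
    TrivSqZeroExt.inr (TrivSqZeroExt.inl (C x.e) + TrivSqZeroExt.inr (C x.t * X ^ k))⟩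

theorem inv3 (c : ℕ → TC K k) (m : FreeMagma ℕ) :
    (FreeMagma.lift (fun i => pt2 (c i)) m).a.fst.fst = X * C (FreeMagma.lift c m).b ∧
    (FreeMagma.lift (fun i => pt2 (c i)) m).a.fst.snd = 0 ∧
    (FreeMagma.lift (fun i => pt2 (c i)) m).a.snd = 0 ∧
    (FreeMagma.lift (fun i => pt2 (c i)) m).b.fst.fst = 0 ∧
    (FreeMagma.lift (fun i => pt2 (c i)) m).b.fst.snd = V c m ∧
    (FreeMagma.lift (fun i => pt2 (c i)) m).b.snd = 0 ∧
    (FreeMagma.lift (fun i => pt2 (c i)) m).m.fst.fst = 0 ∧
    (FreeMagma.lift (fun i => pt2 (c i)) m).m.snd.fst = C (FreeMagma.lift c m).e ∧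
    (m.length ≤ k + 1 →
      (FreeMagma.lift (fun i => pt2 (c i)) m).m.snd.snd.coeff k = (FreeMagma.lift c m).t) := by
  induction m using FreeMagma.recOnMul with
  | ih1 i => simp [pt2, V_of]
  | ih2 x y hx hy =>
    obtain ⟨h1, h2, h3, h4, h5, h6, h7, h8, h9⟩ := hx
    obtain ⟨g1, g2, g3, g4, g5, g6, g7, g8, g9⟩ := hy
    simp only [map_mul, R3.a_mul, R3.b_mul, R3.m_mul, TC.b_mul, TC.e_mul,
      TC.t_mul,
      TrivSqZeroExt.fst_zero, TrivSqZeroExt.snd_zero, TrivSqZeroExt.fst_mul, dsnd_mul,
      TrivSqZeroExt.fst_add, TrivSqZeroExt.snd_add, h4, h5, h6, h7, h8, g1, g2, g3,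
      g4, g5, g6, V_mul,
      map_zero, mul_zero, zero_mul, add_zero, zero_add, true_and]
    refine ⟨by ring, fun hl => ?_⟩
    have hlen : (x * y).length = x.length + y.length := rfl
    have hx0 := len_pos x
    have hy0 := len_pos y
    obtain ⟨r, hr⟩ := inv2 c y
    rw [hr, coeff_add, coeff_C_mul, coeff_C_mul, coeff_X_pow, if_neg (by omega), mul_zero,
      add_zero]

/-- Comparison of coordinates monomial by monomial. -/
theorem compare {A : Type u} [CommRing A] [Algebra K A] [Infinite K]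
    (f : FreeNonUnitalNonAssocAlgebra K ℕ) (hf : Satisfies K (R3 K) f)
    (hk : ∀ m ∈ f.coeff.support, m.length ≤ k + 1) {B : Type u} [AddCommGroup B] [Module K B]
    (pt : TC K k → R3 A) (ℓ : R3 A →ₗ[K] B) (ℓ' : TC K k →ₗ[K] B) (c : ℕ → TC K k)
    (h : ∀ m : FreeMagma ℕ, m.length ≤ k + 1 →
      ℓ (FreeMagma.lift (fun i => pt (c i)) m) = ℓ' (FreeMagma.lift c m)) :
    ℓ' (FreeNonUnitalNonAssocAlgebra.lift K c f) = 0 := by
  have e1 := satisfies_extend f hf A (fun i => pt (c i))
  have e2 := linear_lift ℓ (fun i => pt (c i)) f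
  rw [e1, map_zero] at e2
  rw [linear_lift ℓ' c f, e2]
  exact Finset.sum_congr rfl fun m hm => by rw [h m (hk m hm)]

/-- The scalar part of a dual number, as a `K`-linear map. -/
def fstK (A : Type u) [CommRing A] [Algebra K A] : DualNumber A →ₗ[K] A :=
  ⟨⟨TrivSqZeroExt.fst, fun _ _ => rfl⟩, fun _ _ => rfl⟩

/-- The infinitesimal part of a dual number, as a `K`-linear map. -/
def sndK (A : Type u) [CommRing A] [Algebra K A] : DualNumber A →ₗ[K] A :=
  ⟨⟨TrivSqZeroExt.snd, fun _ _ => rfl⟩, fun _ _ => rfl⟩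

theorem fstK_apply (A : Type u) [CommRing A] [Algebra K A] (x : DualNumber A) :
    fstK (K := K) A x = x.fst := rfl

theorem sndK_apply (A : Type u) [CommRing A] [Algebra K A] (x : DualNumber A) :
    sndK (K := K) A x = x.snd := rfl

theorem satisfies_TC [Infinite K] (f : FreeNonUnitalNonAssocAlgebra K ℕ)
    (hf : Satisfies K (R3 K) f) (hk : ∀ m ∈ f.coeff.support, m.length ≤ k + 1) :
    Satisfies K (TC K k) f := by
  intro c
  have ha : TC.aL (FreeNonUnitalNonAssocAlgebra.lift K c f) = 0 := by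
    apply compare f hf hk pt1 (Polynomial.lcoeff K 0 ∘ₗ sndK K[X] ∘ₗ R3.aL K)
    intro m _
    obtain ⟨h1, h2, h3, h4, h5⟩ := inv1 c m
    simp only [LinearMap.comp_apply, R3.aL_apply, sndK_apply, h2, lcoeff_apply, TC.aL_apply,
      coeff_C_zero]
  have hb : TC.bL (FreeNonUnitalNonAssocAlgebra.lift K c f) = 0 := by
    apply compare f hf hk pt1 (Polynomial.lcoeff K 1 ∘ₗ fstK K[X] ∘ₗ R3.bL K)
    intro m _
    obtain ⟨h1, h2, h3, h4, h5⟩ := inv1 c m
    simp only [LinearMap.comp_apply, R3.bL_apply, fstK_apply, h3, lcoeff_apply, TC.bL_apply,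
      coeff_X_mul, coeff_C_zero]
  have hU : TC.UL (FreeNonUnitalNonAssocAlgebra.lift K c f) = 0 := by
    apply compare f hf hk pt1 (sndK K[X] ∘ₗ R3.mL K)
    intro m _
    obtain ⟨h1, h2, h3, h4, h5⟩ := inv1 c m
    simp only [LinearMap.comp_apply, R3.mL_apply, sndK_apply, h5, TC.UL_apply]
  have he : TC.eL (FreeNonUnitalNonAssocAlgebra.lift K c f) = 0 := by
    apply compare f hf hk pt2
      (Polynomial.lcoeff K 0 ∘ₗ fstK K[X] ∘ₗ sndK (DualNumber K[X]) ∘ₗ R3.mL K)
    intro m _
    obtain ⟨h1, h2, h3, h4, h5, h6, h7, h8, h9⟩ := inv3 c m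
    simp only [LinearMap.comp_apply, R3.mL_apply, sndK_apply, fstK_apply, h8, TC.eL_apply,
      lcoeff_apply, coeff_C_zero]
  have ht : TC.tL (FreeNonUnitalNonAssocAlgebra.lift K c f) = 0 := by
    apply compare f hf hk pt2
      (Polynomial.lcoeff K k ∘ₗ sndK K[X] ∘ₗ sndK (DualNumber K[X]) ∘ₗ R3.mL K)
    intro m hm
    obtain ⟨h1, h2, h3, h4, h5, h6, h7, h8, h9⟩ := inv3 c m
    simp only [LinearMap.comp_apply, R3.mL_apply, sndK_apply, h9 hm, TC.tL_apply,
      lcoeff_apply]
  exact TC.ext ha hb he hU ht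

end

/-! ### The identity of large degree -/

section Identity

variable (K : Type u) [Field K]

/-- Repeated right multiplication by `x`. -/
def rightPow {A : Type*} [Mul A] (x : A) : ℕ → A → A
  | 0, z => z
  | n + 1, z => rightPow x n z * x

theorem map_rightPow {A B : Type u} [NonUnitalNonAssocRing A] [Module K A]
    [NonUnitalNonAssocRing B] [Module K B] (φ : A →ₙₐ[K] B) (x z : A) (n : ℕ) :
    φ (rightPow x n z) = rightPow (φ x) n (φ z) := by
  induction n with
  | zero => rfl
  | succ n ih => rw [rightPow, map_mul, ih, rightPow]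

/-- The identity `w (x y x x ⋯ x) = w (x x y x ⋯ x)`. -/
noncomputable def D (n : ℕ) : FreeNonUnitalNonAssocAlgebra K ℕ :=
  let w := FreeNonUnitalNonAssocAlgebra.of K 0
  let x := FreeNonUnitalNonAssocAlgebra.of K 1
  let y := FreeNonUnitalNonAssocAlgebra.of K 2
  w * rightPow x (n + 1) (x * y) - w * rightPow x n ((x * x) * y)

theorem lift_D {A : Type u} [NonUnitalNonAssocRing A] [Module K A] [IsScalarTower K A A]
    [SMulCommClass K A A] (v : ℕ → A) (n : ℕ) :
    FreeNonUnitalNonAssocAlgebra.lift K v (D K n) =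
      v 0 * rightPow (v 1) (n + 1) (v 1 * v 2) - v 0 * rightPow (v 1) n ((v 1 * v 1) * v 2) := by
  simp only [D, map_sub, map_mul, map_rightPow, FreeNonUnitalNonAssocAlgebra.lift_of_apply]

/-- The identity holds in the three-dimensional algebra. -/
theorem R3_D (n : ℕ) : Satisfies K (R3 K) (D K n) := by
  intro v
  rw [lift_D]
  have hb : ∀ (n : ℕ) (x z : R3 K), (rightPow x (n + 1) z).b = z.b * x.a ^ (n + 1) ∧
      (rightPow x (n + 1) z).a = 0 := by
    intro n x z
    constructor
    · induction n with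
      | zero => simp [rightPow]
      | succ n ih =>
        rw [rightPow, R3.b_mul, ih]
        ring
    · rfl
  have h1 : ∀ (x y : R3 K), (rightPow x (n + 1) (x * y)).b = (rightPow x n ((x * x) * y)).b ∧
      (rightPow x (n + 1) (x * y)).a = (rightPow x n ((x * x) * y)).a := by
    intro x y
    cases n with
    | zero =>
      constructor
      · simp only [rightPow, R3.b_mul]
        ring
      · rfl
    | succ n =>
      rw [(hb (n + 1) x _).1, (hb n x _).1, (hb (n + 1) x _).2, (hb n x _).2]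
      simp only [R3.b_mul]
      constructor
      · ring
      · trivial
  rw [sub_eq_zero]
  obtain ⟨g1, g2⟩ := h1 (v 1) (v 2)
  apply R3.ext
  · rfl
  · rw [R3.b_mul, R3.b_mul, g2]
  · rw [R3.m_mul, R3.m_mul, g1, g2]

/-- The identity fails in the test algebra. -/
theorem TC_D (n : ℕ) : ¬ Satisfies K (TC K (n + 2)) (D K n) := by
  intro h
  let w : TC K (n + 2) := ⟨0, 0, 1, 0, 0⟩
  let x : TC K (n + 2) := ⟨0, 1, 0, 0, 0⟩
  let y : TC K (n + 2) := ⟨1, 0, 0, 0, 0⟩
  have h1 := h (fun i => if i = 0 then w else if i = 1 then x else y)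
  rw [lift_D] at h1
  simp only [if_true, one_ne_zero, if_false, OfNat.ofNat_ne_zero, OfNat.ofNat_ne_one] at h1
  have hp : ∀ m : ℕ, (rightPow x m (x * y)).U = X ^ (m + 1) ∧ (rightPow x m (x * y)).b = 0 := by
    intro m
    induction m with
    | zero => simp [rightPow, x, y]
    | succ m ih =>
      constructor
      · rw [rightPow, TC.U_mul, ih.1, ih.2]
        simp [x]
        ring
      · rfl
  have hq : ∀ m : ℕ, (rightPow x m ((x * x) * y)).U = 0 ∧ (rightPow x m ((x * x) * y)).b = 0 := by
    intro m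
    induction m with
    | zero => simp [rightPow, x, y]
    | succ m ih =>
      constructor
      · rw [rightPow, TC.U_mul, ih.1, ih.2]
        simp [x]
      · rfl
  have h2 := congrArg TC.tL (sub_eq_zero.mp h1)
  rw [TC.tL_apply, TC.tL_apply, TC.t_mul, TC.t_mul, (hp (n + 1)).1, (hq n).1] at h2
  simp [w] at h2

end Identity

/-- Coordinates of the three-dimensional algebra. -/
def coord (K : Type u) [Field K] : R3 K ≃ₗ[K] (K × K × K) where
  toFun x := (x.a, x.b, x.m)
  invFun x := ⟨x.1, x.2.1, x.2.2⟩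
  map_add' _ _ := rfl
  map_smul' _ _ := rfl
  left_inv _ := rfl
  right_inv _ := rfl

/-- **Theorem.** Over every infinite field there is a three-dimensional algebra which is not
finitely based. -/
theorem result (K : Type u) [Field K] [Infinite K] :
    ∃ (R : Type u) (_ : NonUnitalNonAssocRing R) (_ : Module K R) (_ : IsScalarTower K R R)
      (_ : SMulCommClass K R R), Module.finrank K R = 3 ∧ ¬ FinitelyBased K R := by
  refine ⟨R3 K, inferInstance, inferInstance, inferInstance, inferInstance, ?_, ?_⟩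
  · rw [LinearEquiv.finrank_eq (coord K)]
    simp
  · rintro ⟨S, hS, hall⟩
    obtain ⟨n, hn⟩ : ∃ n : ℕ, ∀ f ∈ S, ∀ m ∈ f.coeff.support, m.length ≤ n + 2 + 1 := by
      classical
      let T : Finset (FreeMagma ℕ) := S.biUnion fun f => f.coeff.support
      refine ⟨T.sup FreeMagma.length, fun f hf m hm => ?_⟩
      have : m.length ≤ T.sup FreeMagma.length :=
        Finset.le_sup (f := FreeMagma.length) (Finset.mem_biUnion.mpr ⟨f, hf, hm⟩)
      omega
    exact TC_D K n (hall (D K n) (R3_D K n) (TC K (n + 2))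
      fun g hg => satisfies_TC g (hS g hg) (hn g hg))

end Pool.Agent.Results.MP_c03fb1_al.DimensionThree
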